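import Pool.Agent.H75.ERG.Targets

/-!
# Invariant functions of polygonal billiards: row C_HB
-/

namespace Pool.Agent.H44.EG

open MeasureTheory Set Metric Filter Topology Pool.Agent.H93.BL
open Pool.Agent.H93.EN (av md rf chi gchi Bd Ml Nl Inv Agr sg VV Chart LS Phi)
open Pool.Agent.H93.EG (InvG Sm gN hN nrm)
open Pool.Agent.H75.ERG

theorem HB_vol (x : ℂ) (δ : ℝ) (hδ : 0 < δ) : volume.real (ball x δ) ≤ 4 * δ ^ 2 := by
  rw [Measure.real, Complex.volume_ball, ENNReal.toReal_mul, ENNReal.toReal_pow,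
    ENNReal.toReal_ofReal hδ.le]
  have h1 : (NNReal.pi : ENNReal).toReal = Real.pi := rfl
  rw [h1]
  nlinarith [Real.pi_lt_four, sq_nonneg δ]

theorem hb (hH : T_HLN) (hNB : T_NB) (hPSI : T_PSI) (hBD : T_BDG) (hOMC : T_OMC)
    (hOMM : T_OMM) : T_HB := by
  obtain ⟨C0, hC0, hH⟩ := hH
  refine ⟨4 * C0, by positivity, fun ι P κ Λ a L δ K F m hA x hx w hw => ?_⟩
  obtain ⟨hpc, hp01, -, -, -, hDK, hpl⟩ := hPSI K hA.K1
  have hom := (hOMM ι P F hA.inv δ hA.δ0).2 x w
  have ha := hA.a0
  have hδ := hA.δ0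
  have hΛ := hA.Λ0
  have hR1 : 0 ≤ C0 / δ * om P F δ x w := mul_nonneg (by positivity) hom.1
  have hR2 : 0 ≤ C0 * Λ / a * DK K (m x w) := mul_nonneg (by positivity) (hDK _).1
  have e1 : 4 * C0 / δ * om P F δ x w = 4 * (C0 / δ * om P F δ x w) := by ring
  have e2 : 4 * C0 * Λ / a * DK K (m x w) = 4 * (C0 * Λ / a * DK K (m x w)) := by ring
  rw [e1, e2]
  rcases XG_cases P κ a hA.ls (cutG K F m) x hx with ⟨-, h0⟩ | ⟨hfar, τ, hch, h1⟩
  · rw [h0]
    have h2 : Nl (fun _ _ => 0) δ x w = 0 := by simp [Nl]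
    rw [h2, norm_zero]
    linarith
  · rw [h1]
    have hκ := hA.ls.1
    have hmF : Measurable (Function.uncurry (cutG K F m)) :=
      hA.inv.meas.mul (hpc.measurable.comp hA.cost.meas)
    have hbG : Bd (Phi P (cutG K F m) τ) := by
      refine hBD ι P (cutG K F m) hmF (fun y w => ⟨?_, ?_⟩) (fun y w hy => ?_) τ
      · exact mul_nonneg (hA.inv.bd y w).1 (hp01 _).1
      · exact mul_le_one₀ (hA.inv.bd y w).2 (hp01 _).1 (hp01 _).2
      · show F y w * _ = 0
        rw [hA.inv.out y w hy, zero_mul]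
    have hbF : Bd (Phi P F τ) := hBD ι P F hA.inv.meas hA.inv.bd hA.inv.out τ
    have h3 := (hH _ hbG δ x w (F x w * psi K (m x w)) hδ).1
    obtain ⟨hN1, hN2, -⟩ := hNB ι P κ Λ a L δ K F m hA x hx hfar τ hch w hw
    have hδR : δ ≤ κ * infDist x (VV P) := by
      have h4 := hA.h1
      have h5 : κ * a ≤ κ * infDist x (VV P) := mul_le_mul_of_nonneg_left hfar.le hκ.le
      linarith
    have h6 := hOMC ι P F hA.inv x hx _ τ hch δ hδ hδR w
    have h7 : ∫ y in ball x δ, |Phi P F τ y w - F x w| ≤ δ ^ 2 * om P F δ x w := by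
      have h8 : (0 : ℝ) < δ ^ 2 := by positivity
      rw [inv_mul_le_iff₀ h8] at h6
      exact h6
    set D : ℝ := DK K (m x w) * (Λ * δ / a) with hD
    have hD0 : 0 ≤ D := mul_nonneg (hDK _).1 (by positivity)
    have hpt : ∀ᵐ y : ℂ, y ∈ ball x δ →
        |Phi P (cutG K F m) τ y w - F x w * psi K (m x w)| ≤
          |Phi P F τ y w - F x w| + D := by
      filter_upwards [hN1] with y hy hyb
      have hyb2 : y ∈ ball x (2 * δ) := ball_subset_ball (by linarith) hyb
      obtain ⟨h9, h10⟩ := hy hyb2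
      rw [hN2 y]
      have h11 := hpl (Phi P m τ y w) (m x w) (m x w) (le_trans h10 (by norm_num)) (by
        rw [sub_self, abs_zero]
        norm_num)
      have hn : ‖y - x‖ < δ := by
        rw [← dist_eq_norm]
        exact hyb
      have h12 : |Phi P m τ y w - m x w| ≤ Λ * δ / a := by
        refine le_trans h9 ?_
        have h13 : Λ * ‖y - x‖ ≤ Λ * δ := mul_le_mul_of_nonneg_left hn.le hΛ.le
        exact div_le_div_of_nonneg_right h13 ha.le
      have h14 : |psi K (Phi P m τ y w) - psi K (m x w)| ≤ D :=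
        le_trans h11 (mul_le_mul_of_nonneg_left h12 (hDK _).1)
      have e3 : Phi P F τ y w * psi K (Phi P m τ y w) - F x w * psi K (m x w) =
          (Phi P F τ y w - F x w) * psi K (Phi P m τ y w) +
            F x w * (psi K (Phi P m τ y w) - psi K (m x w)) := by ring
      rw [e3]
      refine le_trans (abs_add_le _ _) (add_le_add ?_ ?_)
      · rw [abs_mul, abs_of_nonneg (hp01 (Phi P m τ y w)).1]
        exact mul_le_of_le_one_right (abs_nonneg _) (hp01 _).2
      · rw [abs_mul, abs_of_nonneg (hA.inv.bd x w).1]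
        refine le_trans (mul_le_of_le_one_left (abs_nonneg _) (hA.inv.bd x w).2) h14
    have hfin : volume (ball x δ) ≠ ⊤ := measure_ball_lt_top.ne
    have hiF : IntegrableOn (fun y => |Phi P F τ y w - F x w|) (ball x δ) := by
      have hm1 : Measurable fun y => |Phi P F τ y w - F x w| :=
        ((hbF.1.comp (measurable_id.prodMk measurable_const)).sub measurable_const).abs
      refine Measure.integrableOn_of_bounded (M := 1) hfin hm1.aestronglyMeasurable ?_
      refine Eventually.of_forall fun y => ?_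
      rw [Real.norm_eq_abs, abs_abs, abs_le]
      have h15 := hbF.2.1 y w
      have h16 := hA.inv.bd x w
      constructor <;> linarith [h15.1, h15.2, h16.1, h16.2]
    have hiD : IntegrableOn (fun _ : ℂ => D) (ball x δ) := integrableOn_const hfin
    have h17 : ∫ y in ball x δ, |Phi P (cutG K F m) τ y w - F x w * psi K (m x w)| ≤
        ∫ y in ball x δ, (|Phi P F τ y w - F x w| + D) := by
      refine integral_mono_of_nonneg (Eventually.of_forall fun y => abs_nonneg _)
        (hiF.add hiD) ?_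
      exact (ae_restrict_iff' measurableSet_ball).2 hpt
    have h18 : ∫ y in ball x δ, (|Phi P F τ y w - F x w| + D) =
        (∫ y in ball x δ, |Phi P F τ y w - F x w|) + volume.real (ball x δ) * D := by
      rw [integral_add hiF hiD, setIntegral_const, smul_eq_mul]
    have h19 : volume.real (ball x δ) * D ≤ 4 * δ ^ 2 * D :=
      mul_le_mul_of_nonneg_right (HB_vol x δ hδ) hD0
    have h20 : ‖Nl (Phi P (cutG K F m) τ) δ x w‖ ≤
        C0 / δ ^ 3 * (δ ^ 2 * om P F δ x w + 4 * δ ^ 2 * D) := by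
      refine le_trans h3 (mul_le_mul_of_nonneg_left ?_ (by positivity))
      linarith [h17, h18, h19, h7]
    have e4 : C0 / δ ^ 3 * (δ ^ 2 * om P F δ x w + 4 * δ ^ 2 * D) =
        C0 / δ * om P F δ x w + 4 * (C0 * Λ / a * DK K (m x w)) := by
      rw [hD]
      field_simp
    rw [e4] at h20
    linarith

end Pool.Agent.H44.EG
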